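import Mathlib
import Pool.Agent.H534.NW.Poly
import Pool.Agent.H534.UT.Miss
import Pool.Agent.H534.UT.Prim
import Pool.Graph.R_pool_sql_team_seeded_5cf16337.K3h89.SI.Real

/-!
# Every narrow shape in every short interval: dense sets of numbers with at most three prime factors in
# `(x, x + √x)`, and of primes

For every large `x` and every `x ^ 0.362 ≤ H ≤ x` (so `H` near `√x` is allowed) every subset of positive relative
density of the set of the numbers of `(x, x + H]` with at most three prime factors, all of them larger than a fixed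
power of `x`, contains constellations of every shape: for arbitrary distinct `b_1, ..., b_k` (no exceptions) and a
positive proportion of the multiples `D = W d`, `d ≤ X`, of a small modulus `W` which depends on the shape, for all
`X` between a power of `log H` and `(H / (W b_j)) ^ (1 / 3)`, many integers `n` have all the `k + 1` numbers
`n, n + D b_1, ..., n + D b_k` in the subset.  For `H ≥ x ^ 0.546` the same holds with two prime factors, and for
`H ≥ x ^ θ` with a certain `θ < 1` for the primes.  In intervals of length `x ^ ε`, `ε > 0` arbitrarily small, it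
holds for all sets of positive density relative to the integers without small prime factors: so if the primes (or
any set of primes) in `(x, x + √x)` have the expected order, then they contain constellations of every shape.

The modulus `W = WS σ b H` is the product of the primes `p ≤ (log H) ^ (1 - σ)` such that `p ≤ log log H` or two
of the numbers `0, b_1, ..., b_k` are congruent modulo `p`; it is always `H ^ o(1)`, and for fixed `b` a bounded
power of `log H`.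

Proof.  The relative multidimensional Szemerédi theorem for shapes of polynomial size and narrow differences
(`Pool.Agent.H534.NW`), and the lower bounds of the library for the number of the almost primes in short intervals
(the weights of Richert) and of the primes (an elementary proof of the theorem of Hoheisel).
-/

set_option autoImplicit false

open Finset Filter

namespace Pool.Agent.Results.MP_b8a134_nt.EveryShapeInShortIntervals

open Pool.Agent.H534.NW (WS Shapes)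

/-- the constant of Richert, `r + 1 - log (4 / (1 + 3 ^ (-r))) / log 3` -/
noncomputable def Lam (r : ℕ) : ℝ := r + 1 - Real.log (4 / (1 + (3 : ℝ) ^ (-(r : ℝ)))) / Real.log 3

open Classical in
/-- the `n` of `(x, x + H]` with at most `r` prime factors, all of them at least `y` -/
noncomputable def AlmostPrimes (r : ℕ) (y : ℝ) (x H : ℕ) : Finset ℕ :=
  (Ioc x (x + H)).filter (fun n => n.primeFactorsList.length ≤ r ∧ ∀ q : ℕ, q.Prime → q ∣ n → y ≤ q)

theorem Lam_eq (r : ℕ) : Lam r = Pool.Agent.K3h19.RV.Lam r := by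
  unfold Lam Pool.Agent.K3h19.RV.Lam
  have h3 : (0 : ℝ) < 3 ^ r := by positivity
  have hL : (0 : ℝ) < Real.log 3 := Real.log_pos (by norm_num)
  have e1 : (3 : ℝ) ^ (-(r : ℝ)) = (3 ^ r)⁻¹ := by
    rw [Real.rpow_neg (by norm_num), Real.rpow_natCast]
  have e2 : (4 : ℝ) / (1 + (3 ^ r)⁻¹) = ((3 ^ r + 1) / 4)⁻¹ * 3 ^ r := by
    field_simp
  rw [e1, e2, Real.log_mul (by positivity) (by positivity), Real.log_inv, Real.log_pow]
  field_simp
  ring

theorem dense (k : ℕ) (ε η κ : ℝ) (hk : 1 ≤ k) (hε : 0 < ε) (hη : 0 < η) (hκ : 0 < κ) :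
    ∃ c σ : ℝ, 0 < c ∧ 0 < σ ∧ σ ≤ 1 / 2 ∧ ∃ L x₀ : ℕ, ∀ x H : ℕ, x₀ ≤ x → (x : ℝ) ^ ε ≤ H → H ≤ x →
      ∀ A : Finset ℕ, A ⊆ Ioc x (x + H) →
      (∀ n ∈ A, ∀ q : ℕ, q.Prime → q ∣ n → (x : ℝ) ^ η ≤ q) → κ * (H / Real.log H) ≤ A.card →
      Shapes k 1 c σ L H A := by
  classical
  obtain ⟨c, σm, hc, hσm, hσm2, hm⟩ := Pool.Agent.H534.NW.polyW (fun _ : Unit => (Polynomial.X : Polynomial ℤ))
    Pool.Agent.H534.UT.sysX k ⌈1 / ε⌉₊ (η / 2) κ hk (by positivity) hκ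
  obtain ⟨L, H₀, hm⟩ := hm σm hσm le_rfl
  rw [Fintype.card_unit] at hm
  have hxr0 : Tendsto (fun X : ℕ => (X : ℝ)) atTop atTop := tendsto_natCast_atTop_atTop
  obtain ⟨x₁, hx₁⟩ := eventually_atTop.1
    (((tendsto_rpow_atTop hε).comp hxr0).eventually_ge_atTop ((H₀ : ℝ) + 1))
  refine ⟨c, σm, hc, hσm, hσm2, L, max x₁ 2, fun x H hx hxH hHx A hA hAr hAc => ?_⟩
  have hx1 := hx₁ x ((le_max_left _ _).trans hx)
  simp only [Function.comp_apply] at hx1
  have hx2 : 2 ≤ x := (le_max_right _ _).trans hx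
  have hxr : (1 : ℝ) < x := by exact_mod_cast (by omega : 1 < x)
  have hH0 : H₀ ≤ H := by
    have : (H₀ : ℝ) ≤ H := by linarith
    exact_mod_cast this
  have hHr : (H : ℝ) ≤ x := by exact_mod_cast hHx
  have hHpos : (1 : ℝ) ≤ H := by
    have : (0 : ℝ) ≤ H₀ := Nat.cast_nonneg _
    linarith
  have hxg : x ≤ H ^ ⌈1 / ε⌉₊ := by
    have h1 : (x : ℝ) ≤ (H : ℝ) ^ (1 / ε) := by
      calc (x : ℝ) = ((x : ℝ) ^ ε) ^ (1 / ε) := by
            rw [← Real.rpow_mul (by linarith), mul_one_div_cancel hε.ne', Real.rpow_one]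
        _ ≤ (H : ℝ) ^ (1 / ε) := Real.rpow_le_rpow (by positivity) hxH (by positivity)
    have h2 : (H : ℝ) ^ (1 / ε) ≤ (H : ℝ) ^ ((⌈1 / ε⌉₊ : ℕ) : ℝ) :=
      Real.rpow_le_rpow_of_exponent_le hHpos (Nat.le_ceil _)
    rw [Real.rpow_natCast] at h2
    exact_mod_cast h1.trans h2
  exact hm x H A hH0 hxg hA
    (fun n hn _ p hp hpH hd => by
      rw [Polynomial.eval_X] at hd
      have h3 := hAr n hn p hp (Int.natCast_dvd_natCast.1 hd)
      have h4 : (H : ℝ) ^ (η / 2) ≤ (x : ℝ) ^ (η / 2) := Real.rpow_le_rpow (by linarith) hHr (by positivity)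
      have h5 : (x : ℝ) ^ (η / 2) < (x : ℝ) ^ η := Real.rpow_lt_rpow_of_exponent_lt hxr (by linarith)
      linarith)
    (by simpa using hAc)

/-- from the number of the elements to the shapes -/
theorem shapes_of (G : ℕ → ℝ → Prop) (θ κ η : ℝ) (hθ : 0 < θ) (hκ : 0 < κ) (hη : 0 < η)
    (hG : ∀ x : ℕ, 1 < x → ∀ n : ℕ, x < n → G n x → ∀ q : ℕ, q.Prime → q ∣ n → (x : ℝ) ^ η ≤ q)
    (hcount : ∃ x₁ : ℝ, ∀ x H : ℝ, x₁ ≤ x → x ^ θ ≤ H → H ≤ x →
      κ * (H / Real.log x) ≤ ({n : ℕ | x < n ∧ (n : ℝ) < x + H ∧ G n x}.ncard : ℝ))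
    (k : ℕ) (κ' : ℝ) (hk : 1 ≤ k) (hκ' : 0 < κ') :
    ∃ c σ : ℝ, 0 < c ∧ 0 < σ ∧ σ ≤ 1 / 2 ∧ ∃ L x₀ : ℕ, ∀ x H : ℕ, x₀ ≤ x → (x : ℝ) ^ θ ≤ H → H ≤ x →
      ∀ Q : Finset ℕ, (∀ n, n ∈ Q ↔ n ∈ Ioc x (x + H) ∧ G n x) → ∀ A ⊆ Q, κ' * (Q.card : ℝ) ≤ A.card →
      Shapes k 1 c σ L H A := by
  classical
  obtain ⟨x₁, hx₁⟩ := hcount
  obtain ⟨c, σ, hc, hσ, hσ2, L, x₀, hm⟩ := dense k θ η (κ' * (κ * θ)) hk hθ hη (by positivity)
  have hxr0 : Tendsto (fun X : ℕ => (X : ℝ)) atTop atTop := tendsto_natCast_atTop_atTop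
  obtain ⟨x₂, hx₂⟩ := eventually_atTop.1 ((hxr0.eventually_ge_atTop x₁).and
    (((tendsto_rpow_atTop hθ).comp hxr0).eventually_ge_atTop 3))
  refine ⟨c, σ, hc, hσ, hσ2, L, max (max x₀ x₂) 3, fun x H hx hxH hHx Q hQ A hA hAc => ?_⟩
  have hx0 : x₀ ≤ x := ((le_max_left _ _).trans (le_max_left _ _)).trans hx
  obtain ⟨h1, h2⟩ := hx₂ x (((le_max_right _ _).trans (le_max_left _ _)).trans hx)
  simp only [Function.comp_apply] at h2
  have hx3 : 3 ≤ x := (le_max_right _ _).trans hx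
  have hxr : (3 : ℝ) ≤ x := by exact_mod_cast hx3
  have hH3 : (3 : ℝ) ≤ H := h2.trans hxH
  have hHr : (H : ℝ) ≤ x := by exact_mod_cast hHx
  have hcnt := hx₁ x H h1 hxH hHr
  have hlogH : 0 < Real.log H := Real.log_pos (by linarith)
  have hlogx : 0 < Real.log x := Real.log_pos (by linarith)
  have hlog : θ * Real.log x ≤ Real.log H := by
    rw [← Real.log_rpow (by linarith)]
    exact Real.log_le_log (by positivity) hxH
  have h3 : κ * θ * (H / Real.log H) ≤ κ * (H / Real.log x) := by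
    rw [mul_assoc]
    refine mul_le_mul_of_nonneg_left ?_ hκ.le
    rw [← mul_div_assoc, div_le_div_iff₀ hlogH hlogx]
    nlinarith
  have h4 : ({n : ℕ | (x : ℝ) < n ∧ (n : ℝ) < x + H ∧ G n x}.ncard : ℝ) ≤ Q.card := by
    rw [← Set.ncard_coe_finset]
    apply Nat.cast_le.2
    apply Set.ncard_le_ncard
    · rintro n ⟨h5, h6, h7⟩
      rw [mem_coe, hQ, mem_Ioc]
      refine ⟨⟨by exact_mod_cast h5, ?_⟩, h7⟩
      have : (n : ℝ) < ((x + H : ℕ) : ℝ) := by push_cast; exact h6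
      exact (Nat.cast_lt.1 this).le
    · exact Finset.finite_toSet _
  refine hm x H hx0 hxH hHx A (fun n hn => ((hQ n).1 (hA hn)).1) (fun n hn q hq hd => ?_) ?_
  · obtain ⟨h5, h6⟩ := (hQ n).1 (hA hn)
    exact hG x (by omega) n (mem_Ioc.1 h5).1 h6 q hq hd
  · refine le_trans ?_ hAc
    rw [mul_assoc]
    exact mul_le_mul_of_nonneg_left (h3.trans (hcnt.trans h4)) hκ'.le

/-- **Every narrow shape in every short interval.** `Shapes k 1 c σ L H A` means: for all `X ≥ (log H) ^ L` and ALL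
distinct `b_1, ..., b_k ≥ 1` with `b_j W X ^ 3 ≤ H`, where `W = WS σ b H`, at least `c X` of the `d ≤ X` are such
that with `D = W d` at least `c H / (log H) ^ (k + 1)` elements `n` of `A` have `n + D b_1, ..., n + D b_k` in `A`.
The four parts: all dense sets of rough numbers in `(x, x + H]`, `x ^ ε ≤ H ≤ x`; all dense sets of numbers with at
most `r` prime factors, `x ^ θ ≤ H ≤ x`, `θ > 1 / Λ_r`; the values of `Λ_2` and `Λ_3`; all dense sets of primes,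
`x ^ θ ≤ H ≤ x` with a certain `θ < 1`. -/
theorem result :
    (∀ (k : ℕ) (ε η κ : ℝ), 1 ≤ k → 0 < ε → 0 < η → 0 < κ →
      ∃ c σ : ℝ, 0 < c ∧ 0 < σ ∧ σ ≤ 1 / 2 ∧ ∃ L x₀ : ℕ, ∀ x H : ℕ, x₀ ≤ x → (x : ℝ) ^ ε ≤ H → H ≤ x →
        ∀ A : Finset ℕ, A ⊆ Ioc x (x + H) → (∀ n ∈ A, ∀ q : ℕ, q.Prime → q ∣ n → (x : ℝ) ^ η ≤ q) →
        κ * (H / Real.log H) ≤ A.card → Shapes k 1 c σ L H A) ∧
    (∀ (r : ℕ) (θ : ℝ), 1 ≤ r → 1 / Lam r < θ → θ ≤ 1 → ∀ (k : ℕ) (κ : ℝ), 1 ≤ k → 0 < κ →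
      ∃ c σ : ℝ, 0 < c ∧ 0 < σ ∧ σ ≤ 1 / 2 ∧ ∃ L x₀ : ℕ, ∀ x H : ℕ, x₀ ≤ x → (x : ℝ) ^ θ ≤ H → H ≤ x →
        ∀ A ⊆ AlmostPrimes r ((x : ℝ) ^ (1 / (4 * Lam r))) x H,
        κ * ((AlmostPrimes r ((x : ℝ) ^ (1 / (4 * Lam r))) x H).card : ℝ) ≤ A.card → Shapes k 1 c σ L H A) ∧
    (1 / Lam 2 < 0.546 ∧ 1 / Lam 3 < 0.362) ∧
    (∃ θ : ℝ, 0 < θ ∧ θ < 1 ∧ ∀ (k : ℕ) (κ : ℝ), 1 ≤ k → 0 < κ →
      ∃ c σ : ℝ, 0 < c ∧ 0 < σ ∧ σ ≤ 1 / 2 ∧ ∃ L x₀ : ℕ, ∀ x H : ℕ, x₀ ≤ x → (x : ℝ) ^ θ ≤ H → H ≤ x →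
        ∀ A ⊆ (Ioc x (x + H)).filter Nat.Prime, κ * (((Ioc x (x + H)).filter Nat.Prime).card : ℝ) ≤ A.card →
        Shapes k 1 c σ L H A) := by
  classical
  have hLam0 : ∀ r : ℕ, 1 ≤ r → 0 < Lam r := by
    intro r hr
    rw [Lam_eq]
    unfold Pool.Agent.K3h19.RV.Lam
    have h1 : (3 : ℝ) ≤ 3 ^ r := by
      calc (3 : ℝ) = 3 ^ 1 := (pow_one _).symm
        _ ≤ 3 ^ r := pow_le_pow_right₀ (by norm_num) hr
    have h2 : 0 ≤ Real.log (((3 : ℝ) ^ r + 1) / 4) := Real.log_nonneg (by linarith)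
    have h3 : 0 < Real.log 3 := Real.log_pos (by norm_num)
    positivity
  refine ⟨fun k ε η κ hk hε hη hκ => dense k ε η κ hk hε hη hκ, ?_, ⟨?_, ?_⟩, ?_⟩
  · intro r θ hr hθ hθ1 k κ' hk hκ'
    have hL := hLam0 r hr
    have hL' : 0 < Pool.Agent.K3h19.RV.Lam r := by rwa [← Lam_eq]
    obtain ⟨κ, hκ, x₁, hx₁⟩ := Pool.Agent.K3h89.SI.count_ap r hr θ hL' (by rwa [← Lam_eq]) hθ1
    have hθ0 : 0 < θ := lt_trans (by positivity) hθ
    obtain ⟨c, σ, hc, hσ, hσ2, L, x₀, hm⟩ := shapes_of (fun n x => n.primeFactorsList.length ≤ r ∧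
      ∀ q : ℕ, q.Prime → q ∣ n → x ^ (1 / (4 * Lam r)) ≤ q) θ κ (1 / (4 * Lam r)) hθ0 hκ (by positivity)
      (fun x _ n _ h => h.2) ⟨x₁, fun x H h1 h2 h3 => by
        have h4 := hx₁ x H h1 h2 h3
        rw [← Lam_eq] at h4
        exact h4⟩ k κ' hk hκ'
    refine ⟨c, σ, hc, hσ, hσ2, L, x₀, fun x H hx hxH hHx A hA hAc => hm x H hx hxH hHx _ (fun n => ?_) A hA hAc⟩
    unfold AlmostPrimes
    exact Finset.mem_filter
  · rw [Lam_eq]
    have h := Pool.Agent.K3h19.RV.lam_two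
    have : 1 / Pool.Agent.K3h19.RV.Lam 2 ≤ 1 / (1 + 5 / 6) :=
      div_le_div_of_nonneg_left (by norm_num) (by norm_num) h
    norm_num at this ⊢
    linarith
  · rw [Lam_eq]
    have h := Pool.Agent.K3h19.RV.lam_three
    have : 1 / Pool.Agent.K3h19.RV.Lam 3 ≤ 1 / (1 + 131 / 74) :=
      div_le_div_of_nonneg_left (by norm_num) (by norm_num) h
    norm_num at this ⊢
    linarith
  · obtain ⟨θ, κ, hθ0, hθ1, hκ, x₁, hx₁⟩ := Pool.Agent.K3h89.SI.count_primes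
    refine ⟨θ, hθ0, hθ1, fun k κ' hk hκ' => ?_⟩
    obtain ⟨c, σ, hc, hσ, hσ2, L, x₀, hm⟩ := shapes_of (fun n _ => n.Prime) θ κ 1 hθ0 hκ one_pos
      (fun x hx n hn hp q hq hd => by
        rw [Real.rpow_one, (Nat.prime_dvd_prime_iff_eq hq hp).1 hd]
        exact_mod_cast hn.le)
      ⟨x₁, fun x H h1 h2 h3 => by
        refine (hx₁ x H h1 h2 h3).trans ?_
        apply Nat.cast_le.2
        apply Set.ncard_le_ncard
        · rintro n ⟨h5, h6, h7⟩
          exact ⟨h6, h7, h5⟩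
        · apply (Set.finite_Iic ⌈x + H⌉₊).subset
          rintro n ⟨_, h6, _⟩
          have : (n : ℝ) ≤ ⌈x + H⌉₊ := h6.le.trans (Nat.le_ceil _)
          exact_mod_cast this⟩ k κ' hk hκ'
    exact ⟨c, σ, hc, hσ, hσ2, L, x₀, fun x H hx hxH hHx A hA hAc => hm x H hx hxH hHx _ (fun n => by
      rw [mem_filter]) A hA hAc⟩

end Pool.Agent.Results.MP_b8a134_nt.EveryShapeInShortIntervals
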