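import Pool.Agent.H521.G.GapExp5

open MeasureTheory Set Filter Topology
open scoped ENNReal ComplexConjugate

namespace Pool.Agent.Results.MP_b8a134_nt.GapExponentFunctions

/-- A sequence of (Beurling) generalised primes `1 < p 0 < p 1 < ⋯ → ∞`. -/
structure GenPrimes (p : ℕ → ℝ) : Prop where
  one_lt : 1 < p 0
  strictMono : StrictMono p
  tendsto : Tendsto p atTop atTop

/-- The generalised integer `∏ p_j ^ (e j)` with exponent vector `e`. -/
noncomputable def genInt (p : ℕ → ℝ) (e : ℕ →₀ ℕ) : ℝ := e.prod fun j k => p j ^ k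

/-- `N_P(x)`, the number of generalised integers `≤ x`, counted with multiplicity. -/
noncomputable def countInts (p : ℕ → ℝ) (x : ℝ) : ℕ := Set.ncard {e : ℕ →₀ ℕ | genInt p e ≤ x}

/-- `π_P(x)`, the number of generalised primes `≤ x`. -/
noncomputable def countPrimes (p : ℕ → ℝ) (x : ℝ) : ℕ := Set.ncard {j : ℕ | p j ≤ x}

/-- The zeta function `ζ_P(s) = ∑ n^{-s}` over the generalised integers. -/
noncomputable def zetaP (p : ℕ → ℝ) (s : ℂ) : ℂ := ∑' e : ℕ →₀ ℕ, ((genInt p e : ℝ) : ℂ) ^ (-s)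

/-- The main term `∫_2^x (1 - ∑_{ρ ∈ Z} Re u^{ρ-1}) du / log u` of the prime counting function,
that is `li x - ∑_ρ li x^ρ` up to a constant, for a finite multiset `Z` of zeros. -/
noncomputable def primeMain (Z : Multiset ℂ) (x : ℝ) : ℝ :=
  ∫ u in (2 : ℝ)..x, (1 - (Z.map fun ρ => ((u : ℂ) ^ (ρ - 1)).re).sum) / Real.log u

/-- `p` is a system of generalised primes whose zeta function continues to `Re s > 1/2`
with only a simple pole at `1`, with zeros exactly `Z` there (with multiplicity) and with the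
Lindelöf bound, and with square-root error terms in the counting of generalised integers and
of generalised primes.  For `Z = 0` this is the Riemann hypothesis for `p`. -/
structure System (Z : Multiset ℂ) (p : ℕ → ℝ) : Prop where
  primes : GenPrimes p
  summable : ∀ s : ℂ, 1 < s.re → Summable fun e : ℕ →₀ ℕ => ((genInt p e : ℝ) : ℂ) ^ (-s)
  zeta : ∃ g : ℂ → ℂ, DifferentiableOn ℂ g {s : ℂ | 1 / 2 < s.re} ∧
    (∀ s : ℂ, 1 < s.re → (s - 1) * zetaP p s = (Z.map fun ρ => s - ρ).prod * Complex.exp (g s)) ∧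
    ∀ ε : ℝ, 0 < ε → ∃ C : ℝ, ∀ s : ℂ, 1 / 2 + ε ≤ s.re →
      ‖(Z.map fun ρ => s - ρ).prod * Complex.exp (g s)‖ ≤ C * (1 + ‖s‖) ^ (1 + ε)
  ints : ∃ κ : ℝ, 0 < κ ∧ ∀ ε : ℝ, 0 < ε → ∃ C : ℝ, ∀ x : ℝ, 1 ≤ x →
    |(countInts p x : ℝ) - κ * x| ≤ C * x ^ (1 / 2 + ε)
  pnt : ∀ ε : ℝ, 0 < ε → ∃ C : ℝ, ∀ x : ℝ, 2 ≤ x →
    |(countPrimes p x : ℝ) - primeMain Z x| ≤ C * x ^ (1 / 2 + ε)

/-- The number of `n` with `p n ≤ x` such that the gap after `p n` is at least `(p n) ^ θ`. -/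
noncomputable def largeGaps (p : ℕ → ℝ) (θ x : ℝ) : ℕ :=
  Set.ncard {n : ℕ | p n ≤ x ∧ p n ^ θ ≤ p (n + 1) - p n}

/-- The exponent `limsup log (largeGaps p θ x) / log x` of the number of gaps of size `p ^ θ`
(`log 0 = 0` as in Mathlib, so the exponent is `0` when there are finitely many such gaps). -/
noncomputable def gapExponent (p : ℕ → ℝ) (θ : ℝ) : ℝ≥0∞ :=
  limsup (fun x : ℝ => ENNReal.ofReal (Real.log (largeGaps p θ x) / Real.log x)) atTop

open Pool.Agent.H521 Pool.Agent.H521.G in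
/-- **Theorem.** The functions `θ ↦ gapExponent p θ`, `0 < θ ≤ 1/2`, of systems of generalised
primes with Riemann hypothesis (or any other finite set of zeros) and square-root error terms are
exactly the nonincreasing functions with values at most `1 - 2θ` (Selberg's bound). -/
theorem result (Z : Multiset ℂ) (hZ : ∀ ρ ∈ Z, 1 / 2 < ρ.re ∧ ρ.re < 1)
    (hZc : Z.map conj = Z) (e : ℝ → ℝ≥0∞) :
    (∃ p : ℕ → ℝ, System Z p ∧ ∀ θ : ℝ, 0 < θ → θ ≤ 1 / 2 → gapExponent p θ = e θ) ↔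
    (∀ θ θ' : ℝ, 0 < θ → θ ≤ θ' → θ' ≤ 1 / 2 → e θ' ≤ e θ) ∧
      ∀ θ : ℝ, 0 < θ → θ ≤ 1 / 2 → e θ ≤ ENNReal.ofReal (1 - 2 * θ) := by
  have hZ1 : ∀ ρ ∈ Z, ρ.re < 1 := fun ρ h => (hZ ρ h).2
  constructor
  · rintro ⟨p, hS, h⟩
    have hW : SysW Z p := ⟨hS.primes.one_lt, hS.primes.strictMono, hS.primes.tendsto,
      hS.summable, hS.zeta, hS.pnt⟩
    have hp1 : ∀ n, 1 ≤ p n := fun n =>
      hS.primes.one_lt.le.trans (hS.primes.strictMono.monotone (Nat.zero_le n))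
    refine ⟨fun θ θ' h1 h2 h3 => ?_, fun θ h1 h2 => ?_⟩
    · rw [← h θ h1 (h2.trans h3), ← h θ' (h1.trans_le h2) h3]
      exact gexp_anti hS.primes.tendsto hp1 h2
    · rw [← h θ h1 h2]
      exact gexp_le hZ1 hZc hW h1 h2
  · rintro ⟨h1, h2⟩
    obtain ⟨p, hs, h⟩ := gexp_suff hZ1 hZc h1 h2
    exact ⟨p, ⟨⟨by linarith [hs.three_le 0], hs.mono, hs.tendsto⟩, hs.summable, hs.zeta,
      hs.ints, hs.pnt⟩, h⟩

end Pool.Agent.Results.MP_b8a134_nt.GapExponentFunctions
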